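import Mathlib
import Pool.Agent.Work.MP_d430fe_gt.Cut
import Pool.Agent.Work.MP_d430fe_gt.Local

/-!
No Corson compact space is a nondegenerate homogeneous uniquely arcwise connected continuum; more
generally, every nonempty open subset of a homogeneous uniquely arcwise connected Hausdorff
continuum contains a countable set which lies in no Corson compact arcwise connected subset.

Idea of the proof.  Call the arc components of `X \ {x}` the branches at `x`.  In the hand-in
InvariantCovers it is shown that no branch is locally in a proper countably complete ideal of
subsets of `X` which is invariant under all homeomorphisms.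
(1) Let the points of `X` have countable local pi-bases.  For a stationary family `F` of countable
sets `D` let `I` consist of the sets whose traces on `closure D` are meagre in `closure D` for all
`D` in the intersection of `F` with a closed unbounded family.  This is such an ideal (sets closed
under a homeomorphism and its inverse are mapped to themselves), and it satisfies the conclusion of
the Banach category theorem.
(2) Suppose that for stationarily many `D` the branch `C` has the property of Baire in `closure D`
on an open set `O` meeting `D`.  By pressing down the open set may be taken to be a fixed member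
of a fixed pi-base; by (1) the trace of `C` on it is nonmeagre for stationarily many of these `D`,
hence comeagre in an open set `O'` meeting `D`, which again may be taken to be fixed.  Then any
other branch at the same point is meagre in `O'` along a stationary family, contradicting (1).
(3) If every countable subset of a nonempty open set `U` is contained in a metrizable closed
arcwise connected set, then the closures of these sets are metrizable; hence there is a point with
a countable local pi-base (otherwise there is an uncountable independent family of pairs of open
sets with disjoint closures, and the closure of a suitable countable set has uncountably many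
clopen subsets).  The traces of branches on the closures of countable subsets of `U` are analytic,
which contradicts (2).
(4) In a Corson compact space every countable set is contained in a metrizable retract, and a
retract of an arcwise connected set is arcwise connected because arcs are unique.
-/

set_option autoImplicit false

universe u v

namespace Pool.Agent.Results.MP_d430fe_gt.CorsonHulls

/-- `A` is an arc with the end points `a` and `b`: a compact connected set whose non-separating
points are exactly the two different points `a` and `b`. -/
def Arc {X : Type*} [TopologicalSpace X] (A : Set X) (a b : X) : Prop :=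
  IsCompact A ∧ IsConnected A ∧ a ∈ A ∧ b ∈ A ∧ a ≠ b ∧
    ∀ x ∈ A, (IsPreconnected (A \ {x}) ↔ x = a ∨ x = b)

/-- any two different points are the end points of exactly one arc -/
def UniquelyArcwiseConnected (X : Type*) [TopologicalSpace X] : Prop :=
  ∀ p q : X, p ≠ q → ∃! A : Set X, Arc A p q

/-- homogeneity -/
def Homogeneous (X : Type*) [TopologicalSpace X] : Prop :=
  ∀ p q : X, ∃ h : X ≃ₜ X, h p = q

/-- any two different points of `S` are the end points of an arc inside `S` -/
def ArcwiseConnectedSet {X : Type*} [TopologicalSpace X] (S : Set X) : Prop :=
  ∀ p ∈ S, ∀ q ∈ S, p ≠ q → ∃ A : Set X, A ⊆ S ∧ Arc A p q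

/-- `Y` is Corson compact: a compact space which has a continuous injective map into a product of
real lines such that the image of every point has only countably many nonzero coordinates -/
def CorsonCompact (Y : Type u) [TopologicalSpace Y] : Prop :=
  CompactSpace Y ∧ ∃ (Γ : Type v) (e : Y → Γ → ℝ), Continuous e ∧ Function.Injective e ∧
    ∀ y, {γ | e y γ ≠ 0}.Countable

open Pool.Agent.Work in
theorem arc_iff' {X : Type*} [TopologicalSpace X] [T2Space X] {A : Set X} {a b : X} :
    Arc A a b ↔ UAC.IsArc A a b :=
  UAC.arc_iff

open Pool.Agent.Work in
theorem uac_iff {X : Type*} [TopologicalSpace X] [T2Space X] (h : UniquelyArcwiseConnected X) :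
    UAC.UniquelyArcwiseConnected X := by
  intro p q hpq
  obtain ⟨A, hA, hu⟩ := h p q hpq
  exact ⟨A, arc_iff'.1 hA, fun B hB => hu B (arc_iff'.2 hB)⟩

open Pool.Agent.Work in
theorem seg_eq {X : Type*} [TopologicalSpace X] [T2Space X] (h : UniquelyArcwiseConnected X)
    {A : Set X} {a b : X} (hA : Arc A a b) : UAC.seg a b = A := by
  obtain ⟨-, r, hr⟩ := arc_iff'.1 hA
  exact UAC.seg_eq_of_ord (uac_iff h) hr

open Pool.Agent.Work in
theorem convex_of {X : Type*} [TopologicalSpace X] [T2Space X]
    (h : UniquelyArcwiseConnected X) {R : Set X} (hR : ArcwiseConnectedSet R) :
    ∀ p ∈ R, ∀ q ∈ R, UAC.seg p q ⊆ R := by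
  intro p hp q hq
  by_cases hpq : p = q
  · rw [hpq, UAC.seg_self]
    exact Set.singleton_subset_iff.2 hq
  · obtain ⟨A, hAR, hA⟩ := hR p hp q hq hpq
    rw [seg_eq h hA]
    exact hAR

open Pool.Agent.Work in
/-- MAIN THEOREM.  Let `X` be a homogeneous uniquely arcwise connected Hausdorff continuum with
more than one point.  Every nonempty open subset of `X` contains a countable set which is not
contained in a Corson compact arcwise connected subset of `X`.  In particular `X` is not Corson
compact. -/
theorem result
    (X : Type u) [TopologicalSpace X] [CompactSpace X] [T2Space X] [Nontrivial X]
    (hX : UniquelyArcwiseConnected X) (hH : Homogeneous X) (U : Set X) (hU : IsOpen U)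
    (hne : U.Nonempty) :
    ∃ D : Set X, D ⊆ U ∧ D.Countable ∧ ∀ R : Set X, D ⊆ R → ArcwiseConnectedSet R →
      ¬ CorsonCompact.{u, v} R := by
  have hX' := uac_iff hX
  obtain ⟨D, hDU, hD, hDR⟩ := UAC.no_corson_hulls.{u, v} hX' hH hU hne
  refine ⟨D, hDU, hD, ?_⟩
  rintro R hsub hac ⟨hc, Γ, e, he1, he2, he3⟩
  have hcl : IsClosed R := (isCompact_iff_compactSpace.2 hc).isClosed
  exact hDR R hcl hsub (convex_of hX hac) Γ e ⟨he1, he2, he3⟩

end Pool.Agent.Results.MP_d430fe_gt.CorsonHulls
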