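import Mathlib
import Pool.Agent.Work.MP_d430fe_gt.Cut
import Pool.Agent.Work.MP_d430fe_gt.Covers

/-!
In a homogeneous uniquely arcwise connected Hausdorff continuum the arc components of the
complements of points are everywhere as large as the whole space, in every sense which is invariant
under homeomorphisms: if a nonempty relatively open part of one of them is covered by `κ` members
of an invariant family of sets, then so is the whole space.  In particular they are nonmeagre in
every nonempty open set and do not have the property of Baire.

Idea of the proof.  Call the arc components of `X \ {x}` the branches at `x`; at every point there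
are at least three of them.
(1) Unbounded chains of segments from a point have countable cofinality (otherwise the chain
converges and its limit makes it bounded).  Hence, if a hereditary family `P` of sets which is
invariant under homeomorphisms contains one branch, then `X` is the union of countably many
branches in `P`: either all branches are in `P`, or exactly one branch at each point is not in `P`
and these branches point to an end of `X` which is fixed by all homeomorphisms.
(2) Zero-one law: let `Θ` be a monotone operator on subsets of `X` with closed values which
commutes with all homeomorphisms.  Then `Θ C` is empty for all branches `C`, or `C ⊆ Θ C` for all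
branches `C`, or there is an end of `X` fixed by all homeomorphisms.  The main case: if exactly one
branch `C` at each point `x` satisfies `x ∈ Θ C`, then two points never point away from each other,
and these directions point to a fixed end.
(3) Apply this to `Θ S =` the closure of the largest open set in which the complement of `S` is
meagre: either all branches are nonmeagre in all nonempty open sets, or every branch lies in the
closure of its interior (with a fixed end the first alternative holds).
(4) Call a closed set `M` regular if every `v ∈ M` is interior to its branch at every `x ∉ M`.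
The only nonempty regular closed set is `X`: otherwise the minimal ones form a partition of `X` into
convex sets `P`, the arc components of `X \ P` are open unions of classes, every class separates
`X`, and a minimal side of a class (seen from a fixed class) cannot exist.  Hence every point has a
neighbourhood `V` all of whose arc components have empty interior.
(5) In the second alternative of (3) one then chooses open sets `U₀ = V ⊇ U₁ ⊇ ...` with
`closure U (n+1) ⊆ U n` and points `y₀, y'₀, y₁, y'₁, ...` with `y' n ∈ U n`, `y (n+1) ∉ V`, which
lie in this order on the segment from `y₀` to `v` for all `v` in the intersection; their limit lies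
in all `U n` and not in `V`, a contradiction.  So all branches are nonmeagre in all nonempty open
sets; in particular they are dense.
(6) Now let `J` be a proper countably complete ideal invariant under a transitive set `G` of
homeomorphisms.  The laws (1) and (2) hold for `G`.  By (1) no branch is in `J`.  Let `Θ S` be the
closed set of the points at which `S` is not locally in `J`.  If a branch is locally in `J`
somewhere, then (2) and the density of the branches leave only the case of an end fixed by `G`
such that `Θ B` is nowhere dense for all branches `B` away from the end; by the Baire category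
theorem some point is outside all these sets `Θ B`, by transitivity all points are, so `B` is in
`J` by compactness, a contradiction.
-/

set_option autoImplicit false

universe u v

namespace Pool.Agent.Results.MP_d430fe_gt.InvariantCovers

/-- `A` is an arc with the end points `a` and `b`: a compact connected set whose non-separating
points are exactly the two different points `a` and `b`. -/
def Arc {X : Type*} [TopologicalSpace X] (A : Set X) (a b : X) : Prop :=
  IsCompact A ∧ IsConnected A ∧ a ∈ A ∧ b ∈ A ∧ a ≠ b ∧
    ∀ x ∈ A, (IsPreconnected (A \ {x}) ↔ x = a ∨ x = b)

/-- any two different points are the end points of exactly one arc -/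
def UniquelyArcwiseConnected (X : Type*) [TopologicalSpace X] : Prop :=
  ∀ p q : X, p ≠ q → ∃! A : Set X, Arc A p q

/-- the arc component of the point `z` in the set `S`: the point `z` and the points which are
joined to `z` by an arc inside `S` -/
def arcComponent {X : Type*} [TopologicalSpace X] (S : Set X) (z : X) : Set X :=
  {w | w = z ∨ ∃ A : Set X, A ⊆ S ∧ Arc A z w}

/-- any two different points of `S` are the end points of an arc inside `S` -/
def ArcwiseConnectedSet {X : Type*} [TopologicalSpace X] (S : Set X) : Prop :=
  ∀ p ∈ S, ∀ q ∈ S, p ≠ q → ∃ A : Set X, A ⊆ S ∧ Arc A p q

/-- `S` is covered by members of the family `F` indexed by `ι` -/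
def Covered {X : Type*} (F : Set (Set X)) (ι : Type*) (S : Set X) : Prop :=
  ∃ f : ι → Set X, (∀ i, f i ∈ F) ∧ S ⊆ ⋃ i, f i

open Pool.Agent.Work in
theorem arc_iff' {X : Type*} [TopologicalSpace X] [T2Space X] {A : Set X} {a b : X} :
    Arc A a b ↔ UAC.IsArc A a b :=
  UAC.arc_iff

open Pool.Agent.Work in
theorem uac_iff {X : Type*} [TopologicalSpace X] [T2Space X] (h : UniquelyArcwiseConnected X) :
    UAC.UniquelyArcwiseConnected X := by
  intro p q hpq
  obtain ⟨A, hA, hu⟩ := h p q hpq
  exact ⟨A, arc_iff'.1 hA, fun B hB => hu B (arc_iff'.2 hB)⟩

open Pool.Agent.Work in
theorem seg_eq {X : Type*} [TopologicalSpace X] [T2Space X] (h : UniquelyArcwiseConnected X)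
    {A : Set X} {a b : X} (hA : Arc A a b) : UAC.seg a b = A := by
  obtain ⟨-, r, hr⟩ := arc_iff'.1 hA
  exact UAC.seg_eq_of_ord (uac_iff h) hr

open Pool.Agent.Work in
theorem arcComponent_eq {X : Type*} [TopologicalSpace X] [T2Space X]
    (h : UniquelyArcwiseConnected X) {x z : X} (hz : z ≠ x) :
    arcComponent {x}ᶜ z = UAC.comp x z := by
  have hX := uac_iff h
  ext w
  constructor
  · rintro (rfl | ⟨A, hAx, hA⟩)
    · exact UAC.self_mem_comp hX hz
    · show x ∉ UAC.seg z w
      rw [seg_eq h hA]
      exact fun hx => hAx hx rfl
  · intro hw
    by_cases hwz : w = z
    · exact Or.inl hwz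
    · obtain ⟨A, hA, -⟩ := h z w (Ne.symm hwz)
      refine Or.inr ⟨A, ?_, hA⟩
      rintro y hy rfl
      apply hw
      rw [seg_eq h hA]
      exact hy

open Pool.Agent.Work in
/-- MAIN THEOREM.  Let `X` be a uniquely arcwise connected Hausdorff continuum with more than one
point and let `G` be a set of homeomorphisms of `X`, closed under inverses, such that for all
points `p, q` some member of `G` maps `p` to `q` (if `X` is homogeneous one may take all
homeomorphisms).  Let `C` be an arc component of `X \ {x}` for some point `x`, and `U` a nonempty
open set.
(1) Let `F` be a family of subsets of `X` which is invariant under `G`.  If `C ∩ U` is covered by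
`κ` members of `F`, where `κ` is an infinite cardinal, then so is `X`.
(2) `C ∩ U` is nonmeagre, and `C` does not have the property of Baire.
(3) Every arcwise connected subset of `X` with the property of Baire is `X` or meagre. -/
theorem result
    (X : Type u) [TopologicalSpace X] [CompactSpace X] [T2Space X] [Nontrivial X]
    (hX : UniquelyArcwiseConnected X) (G : Set (X ≃ₜ X)) (hG : ∀ g ∈ G, g.symm ∈ G)
    (hT : ∀ p q : X, ∃ g ∈ G, g p = q) :
    (∀ x z : X, z ≠ x →
      (∀ U : Set X, IsOpen U → U.Nonempty →
        (∀ F : Set (Set X), (∀ g ∈ G, ∀ A ∈ F, g '' A ∈ F) → ∀ (ι : Type v) [Infinite ι],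
          Covered F ι (arcComponent {x}ᶜ z ∩ U) → Covered F ι (Set.univ : Set X)) ∧
        ¬ IsMeagre (arcComponent {x}ᶜ z ∩ U)) ∧
      ¬ BaireMeasurableSet (arcComponent {x}ᶜ z)) ∧
    (∀ S : Set X, ArcwiseConnectedSet S → BaireMeasurableSet S → S = Set.univ ∨ IsMeagre S) := by
  have hX' := uac_iff hX
  have hTr : UAC.GV.Trans G := ⟨hG, hT⟩
  refine ⟨?_, ?_⟩
  · intro x z hz
    rw [arcComponent_eq hX hz]
    refine ⟨fun U hU hne => ⟨?_, ?_⟩, ?_⟩
    · intro F hF ι _ hcov
      obtain ⟨f, h1, h2⟩ := UAC.GV.cover_of_cover hX' hTr hF ι hz hU hne hcov
      exact ⟨f, h1, h2.ge⟩
    · exact UAC.nonmeagre_everywhere hX' hTr.hom hz hU hne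
    · exact UAC.not_baireMeasurable_comp hX' hTr.hom hz
  · intro S hS hB
    by_cases hne : S = Set.univ
    · exact Or.inl hne
    · right
      refine UAC.isMeagre_of_convex hX' hTr.hom hB ?_ hne
      intro a ha b hb
      by_cases hab : a = b
      · rw [hab, UAC.seg_self]
        exact Set.singleton_subset_iff.2 hb
      · obtain ⟨A, hAS, hA⟩ := hS a ha b hb hab
        rw [seg_eq hX hA]
        exact hAS

end Pool.Agent.Results.MP_d430fe_gt.InvariantCovers
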