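import Mathlib
import Pool.Agent.Work.MP_d430fe_gt.Cut
import Pool.Agent.Work.MP_d430fe_gt.Lots
import Pool.Agent.Work.MP_d430fe_gt.Exists

/-!
Isotopy rigidity of homogeneous uniquely arcwise connected Hausdorff continua.

Idea of the proof.  (1) Every point of a homogeneous uniquely arcwise connected continuum `X` is
the centre of a triod (three arcs that meet only in their common end point): otherwise `X` is
ordered by its arcs like a line without end points, unbounded rays have countable cofinality
(a ray of uncountable cofinality would converge), `X` is a countable union of arcs, by Baire and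
homogeneity every point has a neighbourhood in an arc, and by compactness `X` is an arc.
(2) Moving triod lemma: in a uniquely arcwise connected Hausdorff space the centre `g t` of a
triod which moves continuously with `t` in a compact connected ordered space does not move: the
arc `J` between `g s` and `g t` lies in the range of `g`, at every parameter with `g t` in `J` one
of the three legs leaves `J` at once, and for each leg the centre takes only finitely many values
in `J` at such parameters, since the first point on `J` is locally constant along a path off `J`.
(3) Embeddings of a neighbourhood of `x` map small triods to triods.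
-/

set_option autoImplicit false

universe u v w

namespace Pool.Agent.Results.MP_d430fe_gt.IsotopyRigid

/-- `A` is an arc with the end points `a` and `b`: a compact connected set whose non-separating
points are exactly the two different points `a` and `b`. -/
def Arc {X : Type*} [TopologicalSpace X] (A : Set X) (a b : X) : Prop :=
  IsCompact A ∧ IsConnected A ∧ a ∈ A ∧ b ∈ A ∧ a ≠ b ∧
    ∀ x ∈ A, (IsPreconnected (A \ {x}) ↔ x = a ∨ x = b)

/-- any two different points are the end points of an arc -/
def ArcwiseConnected (P : Type*) [TopologicalSpace P] : Prop :=
  ∀ p q : P, p ≠ q → ∃ A : Set P, Arc A p q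

/-- any two different points are the end points of exactly one arc -/
def UniquelyArcwiseConnected (X : Type*) [TopologicalSpace X] : Prop :=
  ∀ p q : X, p ≠ q → ∃! A : Set X, Arc A p q

/-- homogeneity -/
def Homogeneous (X : Type*) [TopologicalSpace X] : Prop :=
  ∀ p q : X, ∃ h : X ≃ₜ X, h p = q

open Pool.Agent.Work in
theorem arc_iff' {X : Type*} [TopologicalSpace X] [T2Space X] {A : Set X} {a b : X} :
    Arc A a b ↔ UAC.IsArc A a b :=
  UAC.arc_iff

open Pool.Agent.Work in
theorem uac_iff {X : Type*} [TopologicalSpace X] [T2Space X] (h : UniquelyArcwiseConnected X) :
    UAC.UniquelyArcwiseConnected X := by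
  intro p q hpq
  obtain ⟨A, hA, hu⟩ := h p q hpq
  exact ⟨A, arc_iff'.1 hA, fun B hB => hu B (arc_iff'.2 hB)⟩

open Pool.Agent.Work in
/-- ISOTOPY RIGIDITY.  Let `X` be a homogeneous uniquely arcwise connected Hausdorff continuum
(with more than one point), `U` an open set of `X`, `Y` a uniquely arcwise connected Hausdorff
space, `P` an arcwise connected Hausdorff space, and `F t : U → Y`, `t ∈ P`, injective continuous
maps such that `F t x` is continuous in `t` for every `x ∈ U`.  Then `F t x` does not depend on
`t`. -/
theorem result
    (X : Type u) [TopologicalSpace X] [CompactSpace X] [T2Space X] [Nontrivial X]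
    (hX : UniquelyArcwiseConnected X) (hH : Homogeneous X)
    (Y : Type v) [TopologicalSpace Y] [T2Space Y] (hY : UniquelyArcwiseConnected Y)
    (P : Type w) [TopologicalSpace P] [T2Space P] (hP : ArcwiseConnected P)
    (U : Set X) (hU : IsOpen U) (F : P → X → Y)
    (hF : ∀ t, ContinuousOn (F t) U) (hI : ∀ t, Set.InjOn (F t) U)
    (hc : ∀ x ∈ U, Continuous fun t => F t x) :
    ∀ s t : P, ∀ x ∈ U, F s x = F t x := by
  intro s t x hx
  exact UAC.rigid_at (uac_iff hX) (uac_iff hY)
    (fun p q hpq => by
      obtain ⟨A, hA⟩ := hP p q hpq
      exact ⟨A, arc_iff'.1 hA⟩)
    (UAC.exists_triod_at (uac_iff hX) hH x) (hU.mem_nhds hx) hF hI hc s t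

end Pool.Agent.Results.MP_d430fe_gt.IsotopyRigid
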