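import Mathlib
import Pool.Agent.Work.MP_d430fe_gt.Cut
import Pool.Agent.Work.MP_d430fe_gt.Reflect

/-!
In a homogeneous uniquely arcwise connected Hausdorff continuum the arc components of the
complements of points do not have the property of Baire in the closures of almost all sets of a
given size.

Idea of the proof.  Call the arc components of `X \ {x}` the branches at `x`.  In the hand-in
InvariantCovers it is shown that no branch is locally in a proper countably complete ideal of
subsets of `X` which is invariant under all homeomorphisms.
(1) Let `κ` be infinite and such that the points of `X` have local pi-bases with at most `κ`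
members.  For a stationary family `F` of sets `D` of size at most `κ` let `I` consist of the sets
whose traces on `closure D` are meagre in `closure D` for all `D` in the intersection of `F` with a
closed unbounded family.  This is such an ideal (sets closed under a homeomorphism and its inverse
are mapped to themselves), and it satisfies the conclusion of the Banach category theorem.
(2) Suppose that for stationarily many `D` the branch `C` has the property of Baire in `closure D`
on an open set `O` meeting `D`.  By pressing down the open set may be taken to be a fixed member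
of a fixed pi-base; by (1) the trace of `C` on it is nonmeagre for stationarily many of these `D`,
hence comeagre in an open set `O'` meeting `D`, which again may be taken to be fixed.  Then any
other branch at the same point is meagre in `O'` along a stationary family, contradicting (1).
(3) So for each pair of points `x ≠ z` almost all sets `D` have the required property, and a
diagonal intersection gives it for all pairs in `D` at once.
-/

set_option autoImplicit false

universe u

namespace Pool.Agent.Results.MP_d430fe_gt.Reflection

open Cardinal

/-- `A` is an arc with the end points `a` and `b`: a compact connected set whose non-separating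
points are exactly the two different points `a` and `b`. -/
def Arc {X : Type*} [TopologicalSpace X] (A : Set X) (a b : X) : Prop :=
  IsCompact A ∧ IsConnected A ∧ a ∈ A ∧ b ∈ A ∧ a ≠ b ∧
    ∀ x ∈ A, (IsPreconnected (A \ {x}) ↔ x = a ∨ x = b)

/-- any two different points are the end points of exactly one arc -/
def UniquelyArcwiseConnected (X : Type*) [TopologicalSpace X] : Prop :=
  ∀ p q : X, p ≠ q → ∃! A : Set X, Arc A p q

/-- homogeneity -/
def Homogeneous (X : Type*) [TopologicalSpace X] : Prop :=
  ∀ p q : X, ∃ h : X ≃ₜ X, h p = q

/-- the arc component of the point `z` in the set `S`: the point `z` and the points which are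
joined to `z` by an arc inside `S` -/
def arcComponent {X : Type*} [TopologicalSpace X] (S : Set X) (z : X) : Set X :=
  {w | w = z ∨ ∃ A : Set X, A ⊆ S ∧ Arc A z w}

/-- the sets `B i` are nonempty open sets, and every open set containing `p` contains one of
them -/
def LocalPiBase {X : Type*} [TopologicalSpace X] {ι : Type*} (p : X) (B : ι → Set X) : Prop :=
  (∀ i, IsOpen (B i) ∧ (B i).Nonempty) ∧ ∀ O : Set X, IsOpen O → p ∈ O → ∃ i, B i ⊆ O

open Pool.Agent.Work in
theorem arc_iff' {X : Type*} [TopologicalSpace X] [T2Space X] {A : Set X} {a b : X} :
    Arc A a b ↔ UAC.IsArc A a b :=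
  UAC.arc_iff

open Pool.Agent.Work in
theorem uac_iff {X : Type*} [TopologicalSpace X] [T2Space X] (h : UniquelyArcwiseConnected X) :
    UAC.UniquelyArcwiseConnected X := by
  intro p q hpq
  obtain ⟨A, hA, hu⟩ := h p q hpq
  exact ⟨A, arc_iff'.1 hA, fun B hB => hu B (arc_iff'.2 hB)⟩

open Pool.Agent.Work in
theorem seg_eq {X : Type*} [TopologicalSpace X] [T2Space X] (h : UniquelyArcwiseConnected X)
    {A : Set X} {a b : X} (hA : Arc A a b) : UAC.seg a b = A := by
  obtain ⟨-, r, hr⟩ := arc_iff'.1 hA
  exact UAC.seg_eq_of_ord (uac_iff h) hr

open Pool.Agent.Work in
theorem arcComponent_eq {X : Type*} [TopologicalSpace X] [T2Space X]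
    (h : UniquelyArcwiseConnected X) {x z : X} (hz : z ≠ x) :
    arcComponent {x}ᶜ z = UAC.comp x z := by
  have hX := uac_iff h
  ext w
  constructor
  · rintro (rfl | ⟨A, hAx, hA⟩)
    · exact UAC.self_mem_comp hX hz
    · show x ∉ UAC.seg z w
      rw [seg_eq h hA]
      exact fun hx => hAx hx rfl
  · intro hw
    by_cases hwz : w = z
    · exact Or.inl hwz
    · obtain ⟨A, hA, -⟩ := h z w (Ne.symm hwz)
      refine Or.inr ⟨A, ?_, hA⟩
      rintro y hy rfl
      apply hw
      rw [seg_eq h hA]
      exact hy

open Pool.Agent.Work in
/-- MAIN THEOREM.  Let `X` be a homogeneous uniquely arcwise connected Hausdorff continuum with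
more than one point, some point of which has a local pi-base with at most `κ` members, where `κ` is
an infinite cardinal.  Every set `E` of at most `κ` points of `X` is contained in a set `D` of at
most `κ` points such that, for all points `x ≠ z` of `D` and all open sets `O` meeting `D`, the
trace of `C ∩ O` on the closure of `D` does not have the property of Baire in the closure of `D`,
where `C` is the arc component of `z` in `X \ {x}`. -/
theorem result
    (X : Type u) [TopologicalSpace X] [CompactSpace X] [T2Space X] [Nontrivial X]
    (hX : UniquelyArcwiseConnected X) (hH : Homogeneous X)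
    (κ : Cardinal.{u}) (hκ : ℵ₀ ≤ κ) (ι : Type u) (hι : #ι ≤ κ) (p : X) (B : ι → Set X)
    (hB : LocalPiBase p B) (E : Set X) (hE : #E ≤ κ) :
    ∃ D : Set X, #D ≤ κ ∧ E ⊆ D ∧ ∀ x ∈ D, ∀ z ∈ D, z ≠ x → ∀ O : Set X, IsOpen O →
      (O ∩ D).Nonempty →
      ¬ BaireMeasurableSet (Subtype.val ⁻¹' (arcComponent {x}ᶜ z ∩ O) : Set (closure D)) := by
  obtain ⟨D, hD1, hD2, hD3⟩ := UAC.reflect hκ hι hB.1 hB.2 (uac_iff hX) hH hE
  refine ⟨D, hD1, hD2, ?_⟩
  intro x hx z hz hzx O hO hne
  rw [arcComponent_eq hX hzx]
  exact hD3 x hx z hz hzx O hO hne

end Pool.Agent.Results.MP_d430fe_gt.Reflection
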